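import Pool.Agent.W345.GK.Inf

set_option autoImplicit false

open Polynomial Finset

namespace Pool.Agent.W376.GK

open Pool.Agent.W345.GK

section krsec
variable {k F : Type} [Field k] [Field F] [Algebra k F]

/-- extension of scalars for Laurent series -/
noncomputable def mapH (k F : Type) [Field k] [Field F] [Algebra k F] : LS k →+* LS F where
  toFun x := HahnSeries.map x (algebraMap k F)
  map_one' := HahnSeries.map_one (algebraMap k F).toMonoidWithZeroHom
  map_mul' _ _ := HahnSeries.map_mul ((algebraMap k F : k →+* F) : k →ₙ+* F)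
  map_zero' := HahnSeries.map_zero ((algebraMap k F : k →+* F) : ZeroHom k F)
  map_add' _ _ := HahnSeries.map_add ((algebraMap k F : k →+* F) : k →+ F)

theorem mapH_coeff (x : LS k) (j : ℤ) : (mapH k F x).coeff j = algebraMap k F (x.coeff j) := rfl

theorem KR_iff (f : LS F) : KR k f ↔ f ∈ (mapH k F).fieldRange := by
  constructor
  · intro h
    choose c hc using h
    have hs : Function.support c ⊆ f.support := by
      intro j hj hf
      apply hj
      have h1 : f.coeff j = 0 := hf
      rw [← hc j] at h1
      exact (map_eq_zero (algebraMap k F)).mp h1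
    refine ⟨⟨c, f.isPWO_support.mono hs⟩, ?_⟩
    ext j
    rw [mapH_coeff]
    exact hc j
  · rintro ⟨g, rfl⟩ j
    exact ⟨g.coeff j, rfl⟩

theorem KR_single (n : ℤ) (u : k) :
    KR k (HahnSeries.single n (algebraMap k F u) : LS F) := by
  intro j
  by_cases h : j = n
  · rw [h, HahnSeries.coeff_single_same]; exact ⟨u, rfl⟩
  · rw [HahnSeries.coeff_single_of_ne h]; exact ⟨0, map_zero _⟩

end krsec

section lim
variable {F : Type} [Field F]

theorem lim_const (c : LS F) : Lim (fun _ => c) c := ⟨0, fun _ _ _ => rfl⟩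

end lim

theorem exp : S_I1 → S_I3 → S_I4 → S_I5 → S_EXP := by
  intro h1 h3 h4 h5 k F _ _ _ _ P hP hdeg
  classical
  obtain ⟨i1, -, i3, i4, -, i6⟩ := h1 k F
  obtain ⟨-, l2, l3, l4, l5, l6, l7, -⟩ := h3 F
  have hq1 : 1 ≤ Fintype.card k := Fintype.card_pos
  set q := Fintype.card k with hq
  -- injectivity
  have hinj : Function.Injective (iA : k[X] →+* LS F) := by
    intro a b hab
    have : iF q (mapRingHom (algebraMap k F) a) = iF q (mapRingHom (algebraMap k F) b) := hab
    have h := i1 this
    exact Polynomial.map_injective _ (algebraMap k F).injective h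
  have h4' := h4 k (LS F) iA hinj
  have hne : ∀ a : k[X], a ≠ 0 → (iA a : LS F) ≠ 0 := by
    intro a ha h
    apply ha
    apply hinj
    rw [h, map_zero]
  have hP0 : P ≠ 0 := hP.ne_zero
  have hP' : (iA P : LS F) ≠ 0 := hne P hP0
  -- limits
  have lneg : ∀ (f : ℕ → LS F) (g : LS F), Lim f g → Lim (fun N => -f N) (-g) := by
    intro f g hf
    have := l4 _ _ _ _ (lim_const (-1 : LS F)) hf
    simpa using this
  have lsub : ∀ (f f' : ℕ → LS F) (g g' : LS F), Lim f g → Lim f' g' →
      Lim (fun N => f N - f' N) (g - g') := by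
    intro f f' g g' hf hf'
    have := l3 _ _ _ _ hf (lneg _ _ hf')
    simpa [sub_eq_add_neg] using this
  have lpow : ∀ (f : ℕ → LS F) (g : LS F) (n : ℕ), Lim f g → Lim (fun N => f N ^ n) (g ^ n) := by
    intro f g n hf
    induction n with
    | zero => simpa using lim_const (1 : LS F)
    | succ n ih =>
      have := l4 _ _ _ _ ih hf
      simpa [pow_succ] using this
  have ldiv : ∀ (f f' : ℕ → LS F) (g g' : LS F), Lim f g → Lim f' g' → g' ≠ 0 →
      Lim (fun N => f N / f' N) (g / g') := by
    intro f f' g g' hf hf' hg'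
    have := l4 _ _ _ _ hf (l5 _ _ hg' hf')
    simpa [div_eq_mul_inv] using this
  -- the exponential
  choose E hE1 hE2 hE3 using h5 k F
  have Eadd : ∀ z w, E (z + w) = E z + E w := by
    intro z w
    apply l2 _ _ _ (hE1 (z + w))
    have he : (fun N => eps (iA : k[X] →+* LS F) N (z + w)) =
        fun N => eps (iA : k[X] →+* LS F) N z + eps (iA : k[X] →+* LS F) N w :=
      funext fun N => (h4' N).1 z w
    rw [he]
    exact l3 _ _ _ _ (hE1 z) (hE1 w)
  have Esmul : ∀ (u : k) z, E (iA (C u : k[X]) * z) = iA (C u : k[X]) * E z := by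
    intro u z
    apply l2 _ _ _ (hE1 (iA (C u : k[X]) * z))
    have he : (fun N => eps (iA : k[X] →+* LS F) N (iA (C u : k[X]) * z)) =
        fun N => iA (C u : k[X]) * eps (iA : k[X] →+* LS F) N z :=
      funext fun N => (h4' N).2.1 u z
    rw [he]
    exact l4 _ _ _ _ (lim_const _) (hE1 z)
  set E0 : LS F := E (iA (X : k[X]))⁻¹ with hE0
  have hX0 : (iA (X : k[X]) : LS F) ≠ 0 := hne X X_ne_zero
  have hE0ne : E0 ≠ 0 := by
    intro h
    rw [hE0, hE2] at h
    obtain ⟨a, ha⟩ := h
    have h6 : (iA (X * a : k[X]) : LS F) = iA (1 : k[X]) := by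
      rw [map_mul, ← ha, mul_inv_cancel₀ hX0, map_one]
    have h7 := hinj h6
    exact Polynomial.not_isUnit_X (IsUnit.of_mul_eq_one _ h7)
  have EX : ∀ z, E (iA (X : k[X]) * z) = iA (X : k[X]) * E z -
      iA (X : k[X]) * (E z) ^ q / E0 ^ (q - 1) := by
    intro z
    apply l2 _ _ _ (l7 _ _ (hE1 (iA (X : k[X]) * z)))
    have he : (fun N => eps (iA : k[X] →+* LS F) (N + 1) (iA (X : k[X]) * z)) =
        fun N => iA (X : k[X]) * eps (iA : k[X] →+* LS F) N z -
          iA (X : k[X]) * (eps (iA : k[X] →+* LS F) N z) ^ q /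
            (eps (iA : k[X] →+* LS F) N (iA (X : k[X]))⁻¹) ^ (q - 1) :=
      funext fun N => (h4' N).2.2.2 z
    rw [he]
    apply lsub
    · exact l4 _ _ _ _ (lim_const _) (hE1 z)
    · apply ldiv
      · exact l4 _ _ _ _ (lim_const _) (lpow _ _ _ (hE1 z))
      · exact lpow _ _ _ (hE1 _)
      · exact pow_ne_zero _ hE0ne
  -- the period
  have hTX : (iA (X : k[X]) : LS F) = TT F q := by
    show iF q (mapRingHom (algebraMap k F) X) = _
    unfold iF
    simp
  set π : LS F := HahnSeries.single (-1 : ℤ) (1 : F) / E0 with hπ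
  have hs1 : (HahnSeries.single (-1 : ℤ) (1 : F) : LS F) ≠ 0 :=
    HahnSeries.single_ne_zero one_ne_zero
  have hπ0 : π ≠ 0 := div_ne_zero hs1 hE0ne
  have hπq : π ^ (q - 1) = -(iA (X : k[X]) : LS F) / E0 ^ (q - 1) := by
    rw [hπ, div_pow, hTX]
    congr 1
    rw [HahnSeries.single_pow, one_pow]
    unfold TT
    have h6 : (q - 1) • (-1 : ℤ) = 1 - (q : ℤ) := by
      rw [nsmul_eq_mul, Nat.cast_sub hq1]
      push_cast
      ring
    rw [h6]
    ext j
    by_cases hj : j = 1 - (q : ℤ)
    · subst hj
      rw [HahnSeries.coeff_neg, HahnSeries.coeff_single_same, HahnSeries.coeff_single_same, neg_neg]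
    · rw [HahnSeries.coeff_neg, HahnSeries.coeff_single_of_ne hj, HahnSeries.coeff_single_of_ne hj,
        neg_zero]
  have hzero : ∀ a : k[X], E (iA a / iA P) = 0 ↔ P ∣ a := by
    intro a
    rw [hE2]
    constructor
    · rintro ⟨b, hb⟩
      refine ⟨b, ?_⟩
      apply hinj
      rw [map_mul, ← hb, mul_div_cancel₀ _ hP']
    · rintro ⟨b, rfl⟩
      exact ⟨b, by rw [map_mul, mul_div_cancel_left₀ _ hP']⟩
  -- rationality
  have hKmul : ∀ f g : LS F, KR k f → KR k g → KR k (f * g) := by
    intro f g hf hg
    rw [KR_iff] at *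
    exact mul_mem hf hg
  have hKadd : ∀ f g : LS F, KR k f → KR k g → KR k (f + g) := by
    intro f g hf hg
    rw [KR_iff] at *
    exact add_mem hf hg
  have hKinv : ∀ f : LS F, KR k f → KR k f⁻¹ := by
    intro f hf
    rw [KR_iff] at *
    exact inv_mem hf
  have hKdiv : ∀ f g : LS F, KR k f → KR k g → KR k (f / g) := by
    intro f g hf hg
    rw [div_eq_mul_inv]
    exact hKmul _ _ hf (hKinv _ hg)
  have hKX : KR k (iA (X : k[X]) : LS F) := by
    rw [hTX]
    have := KR_single (F := F) (1 - (q : ℤ)) (-1 : k)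
    rw [map_neg, map_one] at this
    exact this
  have hKA : ∀ a : k[X], KR k (iA a : LS F) := by
    intro a
    induction a using Polynomial.induction_on' with
    | add a b ha hb => rw [map_add]; exact hKadd _ _ ha hb
    | monomial n u =>
      rw [← C_mul_X_pow_eq_monomial, map_mul, map_pow]
      apply hKmul
      · have h6 : (iA (C u : k[X]) : LS F) = HahnSeries.single 0 (algebraMap k F u) := by
          show iF q (mapRingHom (algebraMap k F) (C u)) = _
          unfold iF
          simp only [coe_mapRingHom, map_C, aeval_C]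
          rw [HahnSeries.algebraMap_apply', PowerSeries.algebraMap_apply, Algebra.algebraMap_self,
            RingHom.id_apply, HahnSeries.ofPowerSeries_C, HahnSeries.C_apply]
        rw [h6]
        exact KR_single _ _
      · induction n with
        | zero =>
          rw [pow_zero]
          have := KR_single (F := F) (0 : ℤ) (1 : k)
          rw [map_one] at this
          exact this
        | succ n ih => rw [pow_succ]; exact hKmul _ _ ih hKX
  have hKπ : KR k π := by
    rw [hπ]
    apply hKdiv
    · have := KR_single (F := F) (-1 : ℤ) (1 : k)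
      rw [map_one] at this
      exact this
    · exact hE3 _ (hKinv _ hKX)
  refine ⟨fun a => π * E (iA a / iA P), ?_, ?_, ?_, ?_, ?_, ?_⟩
  · intro a b
    rw [map_add, add_div, Eadd, mul_add]
  · intro u a
    rw [map_mul, mul_div_assoc, Esmul]; ring
  · intro a
    show π * E (iA (X * a) / iA P) = iA (X : k[X]) * (π * E (iA a / iA P)) +
      (π * E (iA a / iA P)) ^ q
    rw [map_mul, mul_div_assoc, EX]
    set e := E (iA a / iA P) with he
    have h6 : (π * e) ^ q = π * π ^ (q - 1) * e ^ q := by
      rw [mul_pow, ← pow_succ', Nat.sub_add_cancel hq1]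
    rw [h6, hπq]
    ring
  · intro a
    rw [mul_eq_zero, or_iff_right hπ0]
    exact hzero a
  · intro a
    exact hKmul _ _ hKπ (hE3 _ (hKdiv _ _ (hKA a) (hKA P)))
  · -- closeness
    have hDneg : ∀ f : LS F, Dx q (-f) = -Dx q f := by
      intro f
      have h0 : Dx q (0 : LS F) = 0 := by
        have := i3 0 0
        rw [add_zero] at this
        exact left_eq_add.mp this
      have := i3 f (-f)
      rw [add_neg_cancel, h0] at this
      exact (neg_eq_of_add_eq_zero_right this.symm).symm
    have hdneg : ∀ f : LS F, dl q (-f) = dl q f := by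
      intro f
      unfold dl
      rw [hDneg, neg_div_neg_eq]
    have hddiv : ∀ f g : LS F, f ≠ 0 → g ≠ 0 → dl q (f / g) = dl q f - dl q g := by
      intro f g hf hg
      have := i6 (f / g) g (div_ne_zero hf hg) hg
      rw [div_mul_cancel₀ _ hg] at this
      rw [this, add_sub_cancel_right]
    have hdprod : ∀ (ι : Type) (s : Finset ι) (f : ι → LS F), (∀ i ∈ s, f i ≠ 0) →
        dl q (∏ i ∈ s, f i) = ∑ i ∈ s, dl q (f i) := by
      intro ι s f
      induction s using Finset.induction_on with
      | empty =>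
        intro _
        rw [Finset.prod_empty, Finset.sum_empty]
        have := i6 1 1 one_ne_zero one_ne_zero
        rw [one_mul] at this
        exact left_eq_add.mp this
      | insert i s hi ih =>
        intro hf
        rw [Finset.prod_insert hi, Finset.sum_insert hi, i6, ih]
        · intro j hj; exact hf j (Finset.mem_insert_of_mem hj)
        · exact hf i (Finset.mem_insert_self _ _)
        · exact Finset.prod_ne_zero_iff.mpr fun j hj => hf j (Finset.mem_insert_of_mem hj)
    -- degrees
    have hpol0 : ∀ (N : ℕ) (b : Fin N → k), pol b = 0 → b = 0 := by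
      intro N b hb
      funext i
      have := congrArg (fun f : k[X] => f.coeff (i : ℕ)) hb
      simp only [pol, finsetSum_coeff, coeff_C_mul, coeff_X_pow, coeff_zero] at this
      rw [Finset.sum_eq_single i] at this
      · simpa using this
      · intro j _ hj
        have : (i : ℕ) ≠ (j : ℕ) := fun h => hj (Fin.ext h.symm)
        simp [this]
      · intro h; exact absurd (Finset.mem_univ i) h
    have hpoldeg : ∀ (N : ℕ) (b : Fin N → k), (pol b : k[X]).degree < N := by
      intro N b
      rw [Polynomial.degree_lt_iff_coeff_zero]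
      intro m hm
      simp only [pol, finsetSum_coeff, coeff_C_mul, coeff_X_pow]
      apply Finset.sum_eq_zero
      intro i _
      have : m ≠ (i : ℕ) := by have := i.2; omega
      simp [this]
    have hndvd : ∀ a : Fin P.natDegree → k, a ≠ 0 → ¬ P ∣ pol a := by
      intro a ha h
      have h6 : (pol a : k[X]) ≠ 0 := fun h0 => ha (hpol0 _ _ h0)
      have h7 := Polynomial.degree_le_of_dvd h h6
      have h8 := hpoldeg _ a
      rw [Polynomial.degree_eq_natDegree hP0] at h7
      exact absurd (lt_of_le_of_lt h7 h8) (lt_irrefl _)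
    -- logarithmic derivative of the finite exponentials
    have hfin : ∀ (N : ℕ) (a : Fin P.natDegree → k), a ≠ 0 →
        dl q (eps (iA : k[X] →+* LS F) N (iA (pol a) / iA P)) =
          ∑ b : Fin N → k, dl q (iA (pol a - P * pol b) : LS F) -
            (dl q (iA P) + ∑ b ∈ univ.filter (fun b : Fin N → k => b ≠ 0),
              dl q (iA (P * pol b) : LS F)) := by
      intro N a ha
      have ha0 : (pol a : k[X]) ≠ 0 := fun h0 => ha (hpol0 _ _ h0)
      have hz : (iA (pol a) / iA P : LS F) ≠ 0 := div_ne_zero (hne _ ha0) hP'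
      have hfac : ∀ b : Fin N → k, b ≠ 0 → (1 - iA (pol a) / iA P / iA (pol b) : LS F) =
          -(iA (pol a - P * pol b) / iA (P * pol b)) := by
        intro b hb
        have hb0 : (iA (pol b) : LS F) ≠ 0 := hne _ fun h0 => hb (hpol0 _ _ h0)
        rw [map_sub, map_mul]
        field_simp
        ring
      have hsubne : ∀ b : Fin N → k, (iA (pol a - P * pol b) : LS F) ≠ 0 := by
        intro b
        apply hne
        intro h
        exact hndvd a ha ⟨pol b, sub_eq_zero.mp h⟩
      have hPb : ∀ b : Fin N → k, b ≠ 0 → (iA (P * pol b) : LS F) ≠ 0 := by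
        intro b hb
        exact hne _ (mul_ne_zero hP0 fun h0 => hb (hpol0 _ _ h0))
      have hfne : ∀ b ∈ univ.filter (fun b : Fin N → k => b ≠ 0),
          (1 - iA (pol a) / iA P / iA (pol b) : LS F) ≠ 0 := by
        intro b hb
        rw [Finset.mem_filter] at hb
        rw [hfac b hb.2]
        exact neg_ne_zero.mpr (div_ne_zero (hsubne b) (hPb b hb.2))
      have he : eps (iA : k[X] →+* LS F) N (iA (pol a) / iA P) =
          (iA (pol a) / iA P) * ∏ b ∈ univ.filter (fun b : Fin N → k => b ≠ 0),
            (1 - iA (pol a) / iA P / iA (pol b)) := by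
        unfold eps
        congr!
      rw [he, i6 _ _ hz (Finset.prod_ne_zero_iff.mpr hfne), hdprod _ _ _ hfne,
        hddiv _ _ (hne _ ha0) hP']
      have hsum : ∑ b ∈ univ.filter (fun b : Fin N → k => b ≠ 0),
          dl q (1 - iA (pol a) / iA P / iA (pol b) : LS F) =
          ∑ b ∈ univ.filter (fun b : Fin N → k => b ≠ 0),
            (dl q (iA (pol a - P * pol b) : LS F) - dl q (iA (P * pol b) : LS F)) := by
        refine Finset.sum_congr rfl fun b hb => ?_
        rw [Finset.mem_filter] at hb
        rw [hfac b hb.2, hdneg, hddiv _ _ (hsubne b) (hPb b hb.2)]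
      rw [hsum, Finset.sum_sub_distrib]
      have hall : ∑ b : Fin N → k, dl q (iA (pol a - P * pol b) : LS F) =
          dl q (iA (pol a) : LS F) + ∑ b ∈ univ.filter (fun b : Fin N → k => b ≠ 0),
            dl q (iA (pol a - P * pol b) : LS F) := by
        have h6 : (univ : Finset (Fin N → k)) =
            insert 0 (univ.filter (fun b : Fin N → k => b ≠ 0)) := by
          ext b
          by_cases hb : b = 0
          · simp [hb]
          · simp [hb]
        conv_lhs => rw [h6]
        rw [Finset.sum_insert (by simp)]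
        have h7 : (pol (0 : Fin N → k) : k[X]) = 0 := by
          unfold pol
          simp
        rw [h7, mul_zero, sub_zero]
      rw [hall]
      ring
    -- limits
    have hLdl : ∀ z : LS F, E z ≠ 0 →
        Lim (fun N => dl q (eps (iA : k[X] →+* LS F) N z)) (dl q (E z)) := by
      intro z hz
      unfold dl
      exact ldiv _ _ _ _ (l6 _ _ q (hE1 z)) (hE1 z) hz
    have hex : ∀ a : Fin P.natDegree → k, ∃ B : ℤ, a ≠ 0 → ∀ (N : ℕ) (j : ℤ), j < N - B →
        (dl q (eps (iA : k[X] →+* LS F) N (iA (pol a) / iA P))).coeff j =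
          (dl q (E (iA (pol a) / iA P))).coeff j := by
      intro a
      by_cases ha : a = 0
      · exact ⟨0, fun h => absurd ha h⟩
      · obtain ⟨B, hB⟩ := hLdl (iA (pol a) / iA P) (by
          rw [Ne, hzero]; exact hndvd a ha)
        exact ⟨B, fun _ => hB⟩
    choose B hB using hex
    obtain ⟨Bm, hBm⟩ : ∃ Bm : ℤ, ∀ a, B a ≤ Bm := by
      obtain ⟨M, hM⟩ := (Set.finite_range B).bddAbove
      exact ⟨M, fun a => hM ⟨a, rfl⟩⟩
    refine ⟨Bm, fun N => ?_⟩
    refine ⟨dl q π - (dl q (iA P) + ∑ b ∈ univ.filter (fun b : Fin N → k => b ≠ 0),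
              dl q (iA (P * pol b) : LS F)), ?_⟩
    intro a ha j hj
    have h6 : E (iA (pol a) / iA P) ≠ 0 := by
      rw [Ne, hzero]; exact hndvd a ha
    have h7 := hB a ha N j (by have := hBm a; linarith)
    rw [hfin N a ha] at h7
    rw [i6 _ _ hπ0 h6, HahnSeries.coeff_add, ← h7, ← HahnSeries.coeff_add]
    congr 1
    ring

end Pool.Agent.W376.GK
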